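import Pool.Agent.K1H16.SC.Roth2

set_option autoImplicit false

/-!
# Sum colourings of complete graphs are superlinear

Let `φ` map the `n` vertices of the complete graph to an abelian group. If the colouring of the edge
`xy` by `φ x + φ y` is a star edge colouring, it uses more than `C n` colours, for every constant `C`
and all large `n`, uniformly over all abelian groups and all maps `φ`.

Proof: otherwise the image has small doubling, and the triangle removal lemma gives about `n ^ 2`
three term progressions in it, so that there is one whose difference occurs at least five times as a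
difference in the image; this gives a bicoloured path or cycle with four edges.
-/

namespace Pool.Agent.Results.MP_92084f_co.SumColourings

/-- `c` is a proper colouring of the edges of the complete graph on `V`, and no path with four edges
and no cycle with four edges (`v4 = v0`) uses only two colours. -/
def IsStar {V K : Type} (c : Sym2 V → K) : Prop :=
  (∀ x y z : V, x ≠ y → x ≠ z → y ≠ z → c s(x, y) ≠ c s(x, z)) ∧
  ∀ v0 v1 v2 v3 v4 : V, v0 ≠ v1 → v0 ≠ v2 → v0 ≠ v3 → v1 ≠ v2 → v1 ≠ v3 → v2 ≠ v3 →
    v4 ≠ v1 → v4 ≠ v2 → v4 ≠ v3 →
    ¬ (c s(v0, v1) = c s(v2, v3) ∧ c s(v1, v2) = c s(v3, v4))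

/-- the colour of the edge `xy` is `φ x + φ y` -/
def sumCol {V A : Type} [AddCommGroup A] (φ : V → A) : Sym2 V → A :=
  Sym2.lift ⟨fun x y => φ x + φ y, fun _ _ => add_comm _ _⟩

/-- For every `C` there is `n0` such that for all `n ≥ n0`, all abelian groups `A` and all maps `φ`
of the `n` vertices of the complete graph to `A`: if the colouring `φ x + φ y` is a star edge
colouring, then it uses more than `C n` colours. -/
theorem result (C : ℕ) : ∃ n0 : ℕ, ∀ n : ℕ, n0 ≤ n → ∀ (A : Type) [AddCommGroup A]
    (φ : Fin n → A), IsStar (sumCol φ) →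
    C * n < {a : A | ∃ x y : Fin n, x ≠ y ∧ sumCol φ s(x, y) = a}.ncard := by
  obtain ⟨n0, h⟩ := Pool.Agent.K1H16.SC.main3 C
  exact ⟨n0, fun n hn A _ φ hφ => h n hn A φ hφ.1 hφ.2⟩

end Pool.Agent.Results.MP_92084f_co.SumColourings
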