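import Pool.Agent.K1H16.SC.Sum

set_option autoImplicit false

/-!
# Star edge colourings compatible with the addition of an abelian group

The vertices of the complete graph are the elements of a finite abelian group `A`, and edges of the
same colour have the same sum `x + y`; in other words the colouring is obtained from the colouring
`x + y` by splitting its colour classes in an arbitrary way. Such star edge colourings need more
than `C |A|` colours as soon as `|A|` is large, for every constant `C`.

Proof: at least half of the sums carry at most `2 C` colours. The set of these sums contains a large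
Hilbert cube. On the pairs of points given by the words over an alphabet of four letters, whose
sums all lie in this cube, the colour (as one of the at most `2 C` colours with its sum) is a
colouring with a bounded number of colours, and a monochromatic line (Hales-Jewett) gives a
bicoloured path or cycle with four edges.
-/

namespace Pool.Agent.Results.MP_92084f_co.SumCompatible

/-- `c` is a proper colouring of the edges of the complete graph on `V`, and no path with four edges
and no cycle with four edges (`v4 = v0`) uses only two colours. -/
def IsStar {V K : Type} (c : Sym2 V → K) : Prop :=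
  (∀ x y z : V, x ≠ y → x ≠ z → y ≠ z → c s(x, y) ≠ c s(x, z)) ∧
  ∀ v0 v1 v2 v3 v4 : V, v0 ≠ v1 → v0 ≠ v2 → v0 ≠ v3 → v1 ≠ v2 → v1 ≠ v3 → v2 ≠ v3 →
    v4 ≠ v1 → v4 ≠ v2 → v4 ≠ v3 →
    ¬ (c s(v0, v1) = c s(v2, v3) ∧ c s(v1, v2) = c s(v3, v4))

/-- For every `C` there is `n0` such that for every abelian group `A` with at least `n0` elements,
every star edge colouring `c` of the complete graph on `A`, in which edges of the same colour have
the same sum, uses more than `C |A|` colours. -/
theorem result (C : ℕ) : ∃ n0 : ℕ, ∀ (A : Type) [AddCommGroup A] [Fintype A],
    n0 ≤ Fintype.card A → ∀ (K : Type) (c : Sym2 A → K), IsStar c →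
    (∀ x y z t : A, x ≠ y → z ≠ t → c s(x, y) = c s(z, t) → x + y = z + t) →
    C * Fintype.card A < {k : K | ∃ x y : A, x ≠ y ∧ c s(x, y) = k}.ncard := by
  obtain ⟨n0, h⟩ := Pool.Agent.K1H16.SC.main C
  exact ⟨n0, fun A _ _ hA K c hc hsum => h A hA K c hc.2 hsum⟩

end Pool.Agent.Results.MP_92084f_co.SumCompatible
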