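import Pool.Agent.K1H16.SC.Count
import Pool.Agent.K1H10.SI.Eight

set_option autoImplicit false

/-!
# A lower bound for the star chromatic index

In a star edge colouring every set of three vertices `x, y, z` carries at most one incidence, where
an incidence means that the colour of the edge `xy` occurs at `z`: two such incidences, say of `xy`
at `z` and of `yz` at `x`, give the bicoloured path `t₂ x y z t₁`. Counting the incidences by colours gives
`12 m² ≤ c (n (n - 1) (n - 2) + 12 m)` for every graph with `n` vertices and `m` edges, where `c` is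
the number of colours; for the complete graph this is `3 n (n - 1) ≤ c (n + 4)`. The inequality is sharp: there is
equality for a star edge colouring of `K_8` with `14` colours (from the fourteen planes of the affine space of
dimension three over the field with two elements; `Pool.Agent.K1H10.SI.Eight`).
-/

namespace Pool.Agent.Results.MP_92084f_co.TripleCount

/-- The colouring `c` of the edges of `G` is proper and no path of length four and no cycle of
length four (`v4 = v0`) is bicoloured. -/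
def IsStar {V K : Type} (G : SimpleGraph V) (c : Sym2 V → K) : Prop :=
  (∀ x y z : V, G.Adj x y → G.Adj x z → y ≠ z → c s(x, y) ≠ c s(x, z)) ∧
  ∀ v0 v1 v2 v3 v4 : V, G.Adj v0 v1 → G.Adj v1 v2 → G.Adj v2 v3 → G.Adj v3 v4 →
    v0 ≠ v2 → v0 ≠ v3 → v1 ≠ v3 → v4 ≠ v1 → v4 ≠ v2 →
    ¬ (c s(v0, v1) = c s(v2, v3) ∧ c s(v1, v2) = c s(v3, v4))

/-- Every star edge colouring with `k` colours of a graph with `n` vertices and `m` edges satisfies
`12 m² ≤ k (n (n - 1) (n - 2) + 12 m)`. -/
theorem bound (n k : ℕ) (G : SimpleGraph (Fin n)) (c : Sym2 (Fin n) → Fin k) (h : IsStar G c) :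
    12 * G.edgeSet.ncard ^ 2 ≤ k * (n * (n - 1) * (n - 2) + 12 * G.edgeSet.ncard) := by
  classical
  have h1 := Pool.Agent.K1H16.SC.count (G := G) (c := c) h
  have h2 : G.edgeSet.ncard = G.edgeFinset.card := by
    rw [← SimpleGraph.coe_edgeFinset, Set.ncard_coe_finset]
  rw [Pool.Agent.K1H16.SC.darts_card, Fintype.card_fin, Fintype.card_fin, ← h2] at h1
  have h3 : (n - 1) * (n - 1) - (n - 1) = (n - 1) * (n - 2) := by
    rcases n with _ | _ | n
    · rfl
    · rfl
    · simp only [show n + 1 + 1 - 1 = n + 1 from rfl,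
        show n + 1 + 1 - 2 = n from rfl]
      rw [Nat.sub_eq_iff_eq_add (Nat.le_mul_self _)]
      ring
  rw [h3] at h1
  calc 12 * G.edgeSet.ncard ^ 2 = 3 * (2 * G.edgeSet.ncard) ^ 2 := by ring
    _ ≤ _ := h1
    _ = _ := by ring

/-- For the complete graph the bound is `3 n (n - 1) ≤ k (n + 4)`. -/
theorem complete (n k : ℕ) (hn : 1 ≤ n) (c : Sym2 (Fin n) → Fin k) (h : IsStar ⊤ c) :
    3 * n * (n - 1) ≤ k * (n + 4) := by
  classical
  have h1 := bound n k ⊤ c h
  have h2 : (⊤ : SimpleGraph (Fin n)).edgeSet.ncard = n.choose 2 := by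
    rw [← SimpleGraph.coe_edgeFinset, Set.ncard_coe_finset, SimpleGraph.card_edgeFinset_top_eq_card_choose_two,
      Fintype.card_fin]
  rw [h2] at h1
  obtain ⟨r, rfl⟩ : ∃ r, n = r + 1 := ⟨n - 1, by omega⟩
  have h3 : 2 * (r + 1).choose 2 = (r + 1) * r := by
    have := Nat.choose_two_right (r + 1)
    rw [this, Nat.add_sub_cancel, Nat.mul_div_cancel' (Nat.even_mul_succ_self r |>.two_dvd |> fun h => by rwa [Nat.mul_comm] at h)]
  rcases Nat.eq_zero_or_pos r with rfl | hr
  · simp
  · have h4 : 3 * ((r + 1) * r) ^ 2 ≤ k * ((r + 1) * r * (r - 1) + 6 * ((r + 1) * r)) := by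
      have e1 : 3 * ((r + 1) * r) ^ 2 = 12 * (r + 1).choose 2 ^ 2 := by rw [← h3]; ring
      have e2 : r + 1 - 2 = r - 1 := by omega
      have e3 : 6 * ((r + 1) * r) = 12 * (r + 1).choose 2 := by rw [← h3]; ring
      rw [e1, e3]
      rw [e2, Nat.add_sub_cancel] at h1
      exact h1
    have h5 : (r + 1) * r * (3 * (r + 1) * r) ≤ (r + 1) * r * (k * (r + 1 + 4)) := by
      calc (r + 1) * r * (3 * (r + 1) * r) = 3 * ((r + 1) * r) ^ 2 := by ring
        _ ≤ _ := h4
        _ = (r + 1) * r * (k * (r - 1 + 6)) := by ring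
        _ = _ := by rw [show r - 1 + 6 = r + 1 + 4 by omega]
    rw [Nat.add_sub_cancel]
    exact Nat.le_of_mul_le_mul_left h5 (Nat.mul_pos (by omega) hr)

/-- Every star edge colouring with `k` colours of a graph with `n` vertices and `m` edges satisfies
`12 m² ≤ k (n (n - 1) (n - 2) + 12 m)`, in particular `3 n (n - 1) ≤ k (n + 4)` for `K_n`. The inequality is sharp:
`K_8` has a star edge colouring with `14` colours, for which there is equality. -/
theorem result :
    (∀ (n k : ℕ) (G : SimpleGraph (Fin n)) (c : Sym2 (Fin n) → Fin k), IsStar G c →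
      12 * G.edgeSet.ncard ^ 2 ≤ k * (n * (n - 1) * (n - 2) + 12 * G.edgeSet.ncard)) ∧
    (∀ (n k : ℕ) (c : Sym2 (Fin n) → Fin k), 1 ≤ n → IsStar ⊤ c →
      3 * n * (n - 1) ≤ k * (n + 4)) ∧
    ∃ c : Sym2 (Fin 8) → Fin 14, IsStar ⊤ c ∧ 3 * 8 * (8 - 1) = 14 * (8 + 4) := by
  refine ⟨fun n k G c h => bound n k G c h, fun n k c hn h => complete n k hn c h,
    Pool.Agent.K1H10.SI.c8, ⟨?_, ?_⟩, rfl⟩
  · intro x y z h1 h2 h3
    exact Pool.Agent.K1H10.SI.c8_proper x y z h1.ne h2.ne h3
  · intro v0 v1 v2 v3 v4 h01 h12 h23 h34 h02 h03 h13 h41 h42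
    exact Pool.Agent.K1H10.SI.c8_star v0 v1 v2 v3 v4 h01.ne h02 h03 h12.ne h13 h23.ne h41 h42
      h34.ne.symm

end Pool.Agent.Results.MP_92084f_co.TripleCount
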